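import Pool.Agent.Q97.RE.Tl
import Pool.Agent.Q97.RB.Mn

set_option autoImplicit false

open Filter MeasureTheory Metric Set Topology Complex
open scoped ENNReal

namespace Q97.RE

open Q97.RB Q97.MM

noncomputable section

/-- The mean of the logarithmic counting function. -/
theorem mean_log' {β : ℝ} (hβ : 0 < β) {A : ℝ} (hA : 0 < A) {ε : ℝ} (hε : 0 < ε) :
    ∀ᶠ T : ℝ in atTop, ∀ U : ℝ, Adm T U →
      ∫⁻ y : ℝ, ENNReal.ofReal (logcount (((1 / 2 : ℝ) : ℂ) + y * I) (A / Real.log T) *
        (‖riemannZeta (((1 / 2 : ℝ) : ℂ) + y * I)‖ ^ β * wt T U y)) ≤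
      ENNReal.ofReal ((A / Real.pi + ε) * MB β T U (1 / 2)) := by
  have hπ := Real.pi_pos
  have he : 0 < β * ε := by positivity
  filter_upwards [tilted_sharp hβ hA he] with T h1 U h
  have hL := h.log
  have hU : 0 < U := lt_of_lt_of_le one_pos h.2.1
  have hT0 : 0 < T := by linarith [h.1]
  have hUT : U ≤ T := h.2.2.trans (div_le_self hT0.le hL)
  set K := Real.exp (β * A / Real.pi) + β * ε with hK
  have hK1 : 1 ≤ K := by
    have := Real.one_le_exp (x := β * A / Real.pi) (by positivity)
    linarith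
  have hlK : Real.log K ≤ β * (A / Real.pi + ε) := by
    have h2 : K ≤ Real.exp (β * A / Real.pi) * Real.exp (β * ε) := by
      have h3 := Real.add_one_le_exp (β * ε)
      have h4 := Real.one_le_exp (x := β * A / Real.pi) (by positivity)
      have h5 : Real.exp (β * A / Real.pi) * (β * ε + 1) ≤ Real.exp (β * A / Real.pi) * Real.exp (β * ε) := by gcongr
      have h6 : β * ε ≤ Real.exp (β * A / Real.pi) * (β * ε) := le_mul_of_one_le_left he.le h4
      linarith
    calc Real.log K ≤ Real.log (Real.exp (β * A / Real.pi) * Real.exp (β * ε)) :=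
          Real.log_le_log (by linarith) h2
      _ = β * (A / Real.pi + ε) := by
          rw [← Real.exp_add, Real.log_exp]
          ring
  have hr0 : 0 < A / Real.log T := by positivity
  have h2 := (h1 U h).2
  have h3 := jensen_lint (w := fun y : ℝ => ‖riemannZeta (((1 / 2 : ℝ) : ℂ) + y * I)‖ ^ β * wt T U y)
    (g := fun y : ℝ => β * logcount (((1 / 2 : ℝ) : ℂ) + y * I) (A / Real.log T))
    (zw_meas hβ T U).measurable (fun y => by
      have := wt_pos T U y
      positivity) (fun y => mul_nonneg hβ.le (logcount_nonneg _ hr0))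
    (MB_integrable hβ hU hT0.le hUT (by norm_num) (by norm_num)) hK1 h2
  have hM := MB_nonneg β T U (1 / 2)
  have h4 : ENNReal.ofReal β * (∫⁻ y : ℝ, ENNReal.ofReal (logcount (((1 / 2 : ℝ) : ℂ) + y * I)
      (A / Real.log T) * (‖riemannZeta (((1 / 2 : ℝ) : ℂ) + y * I)‖ ^ β * wt T U y))) ≤
      ENNReal.ofReal β * ENNReal.ofReal ((A / Real.pi + ε) * MB β T U (1 / 2)) := by
    rw [← lintegral_const_mul' _ _ ENNReal.ofReal_ne_top, ← ENNReal.ofReal_mul hβ.le]
    calc _ ≤ ENNReal.ofReal (Real.log K * MB β T U (1 / 2)) := by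
          refine le_trans (le_of_eq ?_) h3
          refine lintegral_congr fun y => ?_
          rw [← ENNReal.ofReal_mul hβ.le]
          congr 1
          ring
      _ ≤ _ := by
          apply ENNReal.ofReal_le_ofReal
          calc Real.log K * MB β T U (1 / 2) ≤ (β * (A / Real.pi + ε)) * MB β T U (1 / 2) := by gcongr
            _ = _ := by ring
  have hb : ENNReal.ofReal β ≠ 0 := by
    rw [Ne, ENNReal.ofReal_eq_zero]
    linarith
  exact (ENNReal.mul_le_mul_iff_right hb ENNReal.ofReal_ne_top).mp h4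

/-- The mean number of zeros. -/
theorem mean_count' {β : ℝ} (hβ : 0 < β) {R : ℝ} (hR : 0 < R) {ε : ℝ} (hε : 0 < ε) :
    ∀ᶠ T : ℝ in atTop, ∀ U : ℝ, Adm T U →
      ∫⁻ y : ℝ, ENNReal.ofReal (count (((1 / 2 : ℝ) : ℂ) + y * I) (R / Real.log T) *
        (‖riemannZeta (((1 / 2 : ℝ) : ℂ) + y * I)‖ ^ β * wt T U y)) ≤
      ENNReal.ofReal ((Real.exp 1 / Real.pi * R + ε) * MB β T U (1 / 2)) := by
  have hA : 0 < Real.exp 1 * R := by positivity
  filter_upwards [mean_log' hβ hA hε] with T h1 U h
  have e2 : Real.exp 1 * R / Real.pi = Real.exp 1 / Real.pi * R := by ring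
  rw [← e2]
  refine le_trans (lintegral_mono fun y => ENNReal.ofReal_le_ofReal ?_) (h1 U h)
  have hL := h.log
  have hw := wt_pos T U y
  set c : ℂ := ((1 / 2 : ℝ) : ℂ) + y * I with hc
  by_cases h0 : riemannZeta c = 0
  · rw [h0, norm_zero, Real.zero_rpow hβ.ne']
    simp
  · have h2 := count_le h0 (r := R / Real.log T) (q := 1) (by positivity) (by norm_num)
    have e1 : R / Real.log T * Real.exp 1 = Real.exp 1 * R / Real.log T := by ring
    rw [e1, one_mul] at h2
    gcongr

/-- Exponential moments of the number of zeros. -/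
theorem exp_sharp {β : ℝ} (hβ : 0 < β) {R lam : ℝ} (hR : 0 < R) (hlam : 0 ≤ lam) {ε : ℝ}
    (hε : 0 < ε) : ∀ᶠ T : ℝ in atTop, ∀ U : ℝ, Adm T U →
      ∫⁻ y : ℝ, ENNReal.ofReal (Real.exp (lam * count (((1 / 2 : ℝ) : ℂ) + y * I)
        (R / Real.log T)) * (‖riemannZeta (((1 / 2 : ℝ) : ℂ) + y * I)‖ ^ β * wt T U y)) ≤
      ENNReal.ofReal ((Real.exp (β * (R * Real.exp (lam / β)) / Real.pi) + ε) * MB β T U (1 / 2)) := by
  have hA : 0 < R * Real.exp (lam / β) := by positivity
  filter_upwards [tilted_sharp hβ hA hε] with T h1 U h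
  refine le_trans (lintegral_mono fun y => ENNReal.ofReal_le_ofReal ?_) (h1 U h).2
  have hL := h.log
  have hw := wt_pos T U y
  set c : ℂ := ((1 / 2 : ℝ) : ℂ) + y * I with hc
  by_cases h0 : riemannZeta c = 0
  · rw [h0, norm_zero, Real.zero_rpow hβ.ne']
    simp
  · have h2 := count_le h0 (r := R / Real.log T) (q := lam / β) (by positivity) (by positivity)
    have e1 : R / Real.log T * Real.exp (lam / β) = R * Real.exp (lam / β) / Real.log T := by ring
    rw [e1] at h2
    have h3 : lam * count c (R / Real.log T) ≤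
        β * logcount c (R * Real.exp (lam / β) / Real.log T) := by
      have h4 := mul_le_mul_of_nonneg_left h2 hβ.le
      have e2 : β * (lam / β * (count c (R / Real.log T) : ℝ)) = lam * count c (R / Real.log T) := by
        field_simp
      rwa [e2] at h4
    gcongr

/-- Tails of the number of zeros. -/
theorem tail_sharp {β : ℝ} (hβ : 0 < β) {R : ℝ} (hR : 0 < R) {N : ℕ} (hN : R ≤ Real.pi * N)
    {ε : ℝ} (hε : 0 < ε) : ∀ᶠ T : ℝ in atTop, ∀ U : ℝ, Adm T U →
      ∫⁻ y : ℝ, {y : ℝ | N ≤ count (((1 / 2 : ℝ) : ℂ) + y * I) (R / Real.log T)}.indicator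
        (fun y => ENNReal.ofReal (‖riemannZeta (((1 / 2 : ℝ) : ℂ) + y * I)‖ ^ β * wt T U y)) y ≤
      ENNReal.ofReal (((Real.exp 1 * R / (Real.pi * N)) ^ (β * N) + ε) * MB β T U (1 / 2)) := by
  have hπ := Real.pi_pos
  have hN0 : 0 < Real.pi * (N : ℝ) := lt_of_lt_of_le hR hN
  have hN1 : (0 : ℝ) < N := by
    by_contra hcon
    push Not at hcon
    nlinarith
  set lam := β * Real.log (Real.pi * N / R) with hlam
  have hlam0 : 0 ≤ lam := mul_nonneg hβ.le (Real.log_nonneg (by rw [le_div_iff₀ hR]; linarith))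
  have e1 : R * Real.exp (lam / β) = Real.pi * N := by
    have : lam / β = Real.log (Real.pi * N / R) := by rw [hlam]; field_simp
    rw [this, Real.exp_log (by positivity)]
    field_simp
  have hlE : 1 ≤ Real.exp (lam * N) := Real.one_le_exp (by positivity)
  filter_upwards [exp_sharp hβ hR hlam0 hε] with T h1 U h
  have h2 := h1 U h
  have e3 : β * (R * Real.exp (lam / β)) / Real.pi = β * N := by
    rw [e1]
    field_simp
  rw [e3] at h2
  have hM := MB_nonneg β T U (1 / 2)
  have h3 : ∀ y : ℝ, {y : ℝ | N ≤ count (((1 / 2 : ℝ) : ℂ) + y * I) (R / Real.log T)}.indicator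
        (fun y => ENNReal.ofReal (‖riemannZeta (((1 / 2 : ℝ) : ℂ) + y * I)‖ ^ β * wt T U y)) y ≤
      ENNReal.ofReal (Real.exp (-(lam * N))) * ENNReal.ofReal (Real.exp (lam * count
        (((1 / 2 : ℝ) : ℂ) + y * I) (R / Real.log T)) *
          (‖riemannZeta (((1 / 2 : ℝ) : ℂ) + y * I)‖ ^ β * wt T U y)) := by
    intro y
    have hw := wt_pos T U y
    by_cases hy : y ∈ {y : ℝ | N ≤ count (((1 / 2 : ℝ) : ℂ) + y * I) (R / Real.log T)}
    · rw [indicator_of_mem hy, ← ENNReal.ofReal_mul (Real.exp_pos _).le]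
      apply ENNReal.ofReal_le_ofReal
      rw [← mul_assoc, ← Real.exp_add]
      apply le_mul_of_one_le_left (by positivity)
      apply Real.one_le_exp
      have hy' : (N : ℝ) ≤ count (((1 / 2 : ℝ) : ℂ) + y * I) (R / Real.log T) := by
        exact_mod_cast (hy : N ≤ _)
      have := mul_le_mul_of_nonneg_left hy' hlam0
      linarith
    · rw [indicator_of_notMem hy]
      exact zero_le
  refine (lintegral_mono h3).trans ?_
  rw [lintegral_const_mul' _ _ ENNReal.ofReal_ne_top]
  calc ENNReal.ofReal (Real.exp (-(lam * N))) * _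
      ≤ ENNReal.ofReal (Real.exp (-(lam * N))) *
        ENNReal.ofReal ((Real.exp (β * N) + ε) * MB β T U (1 / 2)) := by gcongr
    _ ≤ _ := by
        rw [← ENNReal.ofReal_mul (Real.exp_pos _).le, ← mul_assoc]
        apply ENNReal.ofReal_le_ofReal
        apply mul_le_mul_of_nonneg_right _ hM
        rw [mul_add]
        apply add_le_add
        · apply le_of_eq
          rw [← Real.exp_add, Real.rpow_def_of_pos (by positivity)]
          congr 1
          have e4 : Real.log (Real.exp 1 * R / (Real.pi * N)) =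
              1 + (Real.log R - Real.log (Real.pi * N)) := by
            rw [Real.log_div (by positivity) hN0.ne', Real.log_mul (Real.exp_pos _).ne' hR.ne',
              Real.log_exp]
            ring
          rw [hlam, Real.log_div hN0.ne' hR.ne', e4]
          ring
        · apply mul_le_of_le_one_left hε.le
          rw [Real.exp_le_one_iff]
          have : 0 ≤ lam * N := by positivity
          linarith

end

end Q97.RE
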