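import Pool.Agent.Q97.RE.Wj

set_option autoImplicit false

open Filter MeasureTheory Metric Set Topology Complex
open scoped ENNReal

namespace Q97.RE

open Q97.RB Q97.MM

noncomputable section

variable {F : ℂ → ℂ} {α α' β : ℝ}

/-- The weighted circle averages, integrated along the line. -/
theorem circ_int_w (hF : Differentiable ℂ F) (hβ : 0 < β) (hG : Gd F α α') {x r : ℝ}
    (hr : 0 < r) (h1 : α ≤ x - r) (h2 : x + r ≤ α') {ω : ℝ → ℝ} (hω : Continuous ω)
    (hω0 : ∀ t, 0 ≤ ω t) :
    ∫⁻ y : ℝ, ENNReal.ofReal (Real.circleAverage (fun z => ‖F z‖ ^ β * ω z.re) (x + y * I) r) =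
      ENNReal.ofReal ((2 * Real.pi)⁻¹) * ∫⁻ θ in Ioc 0 (2 * Real.pi),
        ENNReal.ofReal (ω (x + r * Real.cos θ) * LI F β (x + r * Real.cos θ)) := by
  have hFc := hF.continuous
  have hπ := Real.pi_pos
  have hcm : ∀ y θ : ℝ, circleMap ((x : ℂ) + y * I) r θ =
      ((x + r * Real.cos θ : ℝ) : ℂ) + ((y + r * Real.sin θ : ℝ) : ℂ) * I := by
    intro y θ
    rw [circleMap, Complex.exp_mul_I]
    push_cast
    ring
  have hre : ∀ y θ : ℝ, (circleMap ((x : ℂ) + y * I) r θ).re = x + r * Real.cos θ := by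
    intro y θ
    rw [hcm, Complex.add_re, Complex.ofReal_re, Complex.mul_I_re, Complex.ofReal_im, neg_zero,
      add_zero]
  have hc1 : Continuous (fun p : ℝ × ℝ => ‖F (circleMap ((x : ℂ) + p.1 * I) r p.2)‖ ^ β) := by
    refine Continuous.rpow_const ?_ fun p => Or.inr hβ.le
    simp only [hcm]
    fun_prop
  have hc2 : Continuous (fun p : ℝ × ℝ => ‖F (circleMap ((x : ℂ) + p.1 * I) r p.2)‖ ^ β *
      ω (x + r * Real.cos p.2)) := by
    refine hc1.mul ?_
    fun_prop
  have e1 : ∀ y : ℝ, ENNReal.ofReal (Real.circleAverage (fun z => ‖F z‖ ^ β * ω z.re)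
      (x + y * I) r) = ENNReal.ofReal ((2 * Real.pi)⁻¹) * ∫⁻ θ in Ioc 0 (2 * Real.pi),
        ENNReal.ofReal (‖F (circleMap ((x : ℂ) + y * I) r θ)‖ ^ β * ω (x + r * Real.cos θ)) := by
    intro y
    have hcy : Continuous (fun θ : ℝ => ‖F (circleMap ((x : ℂ) + y * I) r θ)‖ ^ β *
        ω (x + r * Real.cos θ)) := hc2.comp (continuous_const.prodMk continuous_id)
    rw [Real.circleAverage_def, smul_eq_mul, ENNReal.ofReal_mul (by positivity),
      intervalIntegral.integral_of_le (by positivity)]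
    simp only [hre]
    rw [ofReal_integral_eq_lintegral_ofReal
        (hcy.integrableOn_Ioc) (Eventually.of_forall fun θ => mul_nonneg (by positivity) (hω0 _))]
  simp_rw [e1]
  have hm : Measurable (fun p : ℝ × ℝ =>
      ENNReal.ofReal (‖F (circleMap ((x : ℂ) + p.1 * I) r p.2)‖ ^ β * ω (x + r * Real.cos p.2))) :=
    hc2.measurable.ennreal_ofReal
  rw [lintegral_const_mul _ (Measurable.lintegral_prod_right hm),
    lintegral_lintegral_swap hm.aemeasurable]
  congr 1
  refine setLIntegral_congr_fun measurableSet_Ioc fun θ _ => ?_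
  have hcos := Real.neg_one_le_cos θ
  have hcos' := Real.cos_le_one θ
  simp only [hcm]
  have e2 : ∀ y : ℝ, ENNReal.ofReal (‖F (((x + r * Real.cos θ : ℝ) : ℂ) +
      ((y + r * Real.sin θ : ℝ) : ℂ) * I)‖ ^ β * ω (x + r * Real.cos θ)) =
      ENNReal.ofReal (ω (x + r * Real.cos θ)) * ENNReal.ofReal (‖F (((x + r * Real.cos θ : ℝ) : ℂ) +
      ((y + r * Real.sin θ : ℝ) : ℂ) * I)‖ ^ β) := by
    intro y
    rw [mul_comm, ENNReal.ofReal_mul (hω0 _)]
  simp_rw [e2]
  rw [lintegral_const_mul' _ _ ENNReal.ofReal_ne_top, ENNReal.ofReal_mul (hω0 _)]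
  congr 1
  rw [lintegral_add_right_eq_self (fun y : ℝ =>
    ENNReal.ofReal (‖F (((x + r * Real.cos θ : ℝ) : ℂ) + (y : ℂ) * I)‖ ^ β)) (r * Real.sin θ)]
  exact LI_lint hF hβ hG (by nlinarith) (by nlinarith)

/-- the weight: `exp (-β L (1/2 - x)⁺)` -/
def om (β L x : ℝ) : ℝ := Real.exp (-(β * L * max 0 (1 / 2 - x)))

theorem om_cont (β L : ℝ) : Continuous (om β L) := by
  unfold om
  fun_prop

theorem om_pos (β L x : ℝ) : 0 < om β L x := Real.exp_pos _

/-- The weighted bound on the lines near the critical line. -/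
theorem HB_w {β : ℝ} (hβ : 0 < β) {A : ℝ} (hA : 0 < A) {ε : ℝ} (hε : 0 < ε) :
    ∀ᶠ T : ℝ in atTop, ∀ U : ℝ, Adm T U → ∀ x : ℝ, |x - 1 / 2| ≤ A / Real.log T →
      om β (Real.log T) x * HB β T U x ≤ (1 + ε) * HB β T U (1 / 2) := by
  have hK1 : 1 ≤ Real.exp (β * A) := Real.one_le_exp (by positivity)
  set e := ε / 2 with he
  have he0 : 0 < e := by positivity
  filter_upwards [GB_le hβ hA.le he0, GB_neg_le hβ hA.le he0,
    (log_div_tendsto A).eventually (gt_mem_nhds (show (0 : ℝ) < 1 / 4 by norm_num))]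
    with T h1 h2 h3 U h x hx
  have hL := h.log
  have hT : 0 < T := by linarith [h.1]
  have hL0 : 0 < Real.log T := by linarith
  have hr0 : 0 < A / Real.log T := by positivity
  rw [abs_of_pos hr0] at h3
  set r := A / Real.log T with hr
  have hrL : r * Real.log T = A := by rw [hr]; field_simp
  set L := Real.log T with hLd
  have hV0 := HB_pos hβ h (x := 1 / 2) (by norm_num) (by norm_num)
  have hG := FB_gd hβ T h.pos
  have hG' : Gd (FB β T U) (1 / 2 - r) (1 / 2 + r) := Gd_mono hG (by linarith) (by linarith)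
  have hx' := abs_le.mp hx
  have g1 := h1 U h
  have g2 := h2 U h
  rcases le_total (1 / 2) x with hx2 | hx2
  · -- to the right
    have hG1 : Gd (FB β T U) (1 / 2) (1 / 2 + r) := Gd_mono hG (by linarith) (by linarith)
    have hmp := max_principle (LI_contOn (FB_diff β T U) hβ hG1)
      (fun x r' hr' ha hb => submean (FB_diff β T U) hβ hG1 hr' ha hb)
    have h4 := hmp x ⟨hx2, by linarith [hx'.2]⟩
    have g4 : HB β T U (1 / 2 + r) ≤ (1 + e) * HB β T U (1 / 2) := by
      unfold GB at g1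
      rwa [div_le_iff₀ hV0] at g1
    have g5 : om β L x = 1 := by
      unfold om
      rw [max_eq_left (by linarith), mul_zero, neg_zero, Real.exp_zero]
    rw [g5, one_mul]
    refine h4.trans (max_le ?_ (g4.trans ?_))
    · change HB β T U (1 / 2) ≤ _
      nlinarith
    · apply mul_le_mul_of_nonneg_right _ hV0.le
      linarith
  · -- to the left
    have hG1 : Gd (FB β T U) (1 / 2 - r) (1 / 2) := Gd_mono hG (by linarith) (by linarith)
    set F₁ : ℂ → ℂ := fun s => FB β T U s * cexp ((L : ℂ) * s) with hF₁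
    have hF₁d : Differentiable ℂ F₁ := (FB_diff β T U).mul (by fun_prop)
    have hG2 : Gd F₁ (1 / 2 - r) (1 / 2) := Gd_exp hG1 L
    have hmp := max_principle (LI_contOn hF₁d hβ hG2)
      (fun x r' hr' ha hb => submean hF₁d hβ hG2 hr' ha hb)
    have h4 := hmp x ⟨by linarith [hx'.1], hx2⟩
    rw [hF₁, LI_exp, LI_exp, LI_exp] at h4
    have g4 : HB β T U (1 / 2 - r) ≤ (Real.exp (β * A) * (1 + e) + e) * HB β T U (1 / 2) := by
      have g5 : GB β T U (-A) ≤ Real.exp (β * A) * (1 + e) + e :=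
        g2.trans (add_le_add (mul_le_mul_of_nonneg_left g1 (by positivity)) le_rfl)
      unfold GB at g5
      rwa [div_le_iff₀ hV0, neg_div, ← sub_eq_add_neg] at g5
    -- multiply by `exp (-β L / 2)`
    have e1 : om β L x = Real.exp (-(L * β * (1 / 2))) * Real.exp (L * β * x) := by
      unfold om
      rw [max_eq_right (by linarith), ← Real.exp_add]
      congr 1
      ring
    have e2 : Real.exp (-(L * β * (1 / 2))) * Real.exp (L * β * (1 / 2 - r)) =
        Real.exp (-(β * A)) := by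
      rw [← Real.exp_add]
      congr 1
      rw [← hrL]
      ring
    have e3 : Real.exp (-(L * β * (1 / 2))) * Real.exp (L * β * (1 / 2)) = 1 := by
      rw [← Real.exp_add, neg_add_cancel, Real.exp_zero]
    have e4 : Real.exp (-(β * A)) * Real.exp (β * A) = 1 := by
      rw [← Real.exp_add, neg_add_cancel, Real.exp_zero]
    have hE0 := Real.exp_pos (-(L * β * (1 / 2)))
    have hEA := Real.exp_pos (-(β * A))
    have hEA1 : Real.exp (-(β * A)) ≤ 1 := Real.exp_le_one_iff.mpr (by
      have : 0 < β * A := by positivity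
      linarith)
    rw [e1, mul_assoc]
    refine (mul_le_mul_of_nonneg_left h4 hE0.le).trans ?_
    rw [mul_max_of_nonneg _ _ hE0.le]
    refine max_le ?_ ?_
    · change Real.exp (-(L * β * (1 / 2))) * (Real.exp (L * β * (1 / 2 - r)) *
        HB β T U (1 / 2 - r)) ≤ _
      rw [← mul_assoc, e2]
      refine (mul_le_mul_of_nonneg_left g4 hEA.le).trans ?_
      rw [← mul_assoc]
      apply mul_le_mul_of_nonneg_right _ hV0.le
      calc Real.exp (-(β * A)) * (Real.exp (β * A) * (1 + e) + e)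
          = (Real.exp (-(β * A)) * Real.exp (β * A)) * (1 + e) + Real.exp (-(β * A)) * e := by ring
        _ ≤ 1 * (1 + e) + 1 * e := by
            rw [e4]
            gcongr
        _ = 1 + ε := by rw [he]; ring
    · change Real.exp (-(L * β * (1 / 2))) * (Real.exp (L * β * (1 / 2)) *
        HB β T U (1 / 2)) ≤ _
      rw [← mul_assoc, e3, one_mul]
      nlinarith

/-- The weighted circle means of `F`. -/
theorem circle_w {β : ℝ} (hβ : 0 < β) {A : ℝ} (hA : 0 < A) {ε : ℝ} (hε : 0 < ε) :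
    ∀ᶠ T : ℝ in atTop, ∀ U : ℝ, Adm T U →
      ∫⁻ y : ℝ, ENNReal.ofReal (Real.circleAverage (fun z => ‖FB β T U z‖ ^ β *
        om β (Real.log T) z.re) (((1 / 2 : ℝ) : ℂ) + y * I) (A / Real.log T)) ≤
      ENNReal.ofReal ((1 + ε) * HB β T U (1 / 2)) := by
  filter_upwards [HB_w hβ hA hε,
    (log_div_tendsto A).eventually (gt_mem_nhds (show (0 : ℝ) < 1 / 4 by norm_num))]
    with T h1 h3 U h
  have hL := h.log
  have hπ := Real.pi_pos
  have hr0 : 0 < A / Real.log T := by positivity
  rw [abs_of_pos hr0] at h3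
  set r := A / Real.log T with hr
  rw [circ_int_w (FB_diff β T U) hβ (FB_gd hβ T h.pos) (x := 1 / 2) (r := r) hr0
    (by linarith) (by linarith) (om_cont β (Real.log T)) (fun t => (om_pos _ _ t).le)]
  have h4 : ∫⁻ θ in Ioc 0 (2 * Real.pi), ENNReal.ofReal (om β (Real.log T) (1 / 2 + r * Real.cos θ) *
      LI (FB β T U) β (1 / 2 + r * Real.cos θ)) ≤
      ∫⁻ _ in Ioc 0 (2 * Real.pi), ENNReal.ofReal ((1 + ε) * HB β T U (1 / 2)) := by
    refine setLIntegral_mono' measurableSet_Ioc fun θ _ => ENNReal.ofReal_le_ofReal ?_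
    refine h1 U h _ ?_
    rw [add_sub_cancel_left, abs_mul, abs_of_pos hr0]
    exact mul_le_of_le_one_right hr0.le (Real.abs_cos_le_one θ)
  calc ENNReal.ofReal ((2 * Real.pi)⁻¹) * ∫⁻ θ in Ioc 0 (2 * Real.pi),
        ENNReal.ofReal (om β (Real.log T) (1 / 2 + r * Real.cos θ) *
          LI (FB β T U) β (1 / 2 + r * Real.cos θ))
      ≤ ENNReal.ofReal ((2 * Real.pi)⁻¹) * ∫⁻ _ in Ioc 0 (2 * Real.pi),
        ENNReal.ofReal ((1 + ε) * HB β T U (1 / 2)) := by gcongr
    _ = ENNReal.ofReal ((1 + ε) * HB β T U (1 / 2)) := by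
        rw [setLIntegral_const, Real.volume_Ioc, sub_zero, mul_comm, mul_assoc,
          ← ENNReal.ofReal_mul (by positivity), mul_inv_cancel₀ (by positivity), ENNReal.ofReal_one,
          mul_one]

theorem cos_neg_int : ∫ θ in (0 : ℝ)..(2 * Real.pi), max 0 (-Real.cos θ) = 2 := by
  have hπ := Real.pi_pos
  have hc : Continuous fun θ : ℝ => max 0 (-Real.cos θ) := by fun_prop
  have h1 : ∫ θ in (0 : ℝ)..(Real.pi / 2), max 0 (-Real.cos θ) = 0 := by
    rw [intervalIntegral.integral_congr (g := fun _ => (0 : ℝ)), intervalIntegral.integral_zero]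
    intro θ hθ
    rw [uIcc_of_le (by positivity)] at hθ
    have := Real.cos_nonneg_of_neg_pi_div_two_le_of_le (x := θ) (by linarith [hθ.1]) hθ.2
    simp only
    rw [max_eq_left (by linarith)]
  have h2 : ∫ θ in (Real.pi / 2)..(Real.pi + Real.pi / 2), max 0 (-Real.cos θ) = 2 := by
    rw [intervalIntegral.integral_congr (g := fun θ => -Real.cos θ)]
    · rw [intervalIntegral.integral_neg, integral_cos, add_comm Real.pi (Real.pi / 2),
        Real.sin_add_pi, Real.sin_pi_div_two]
      norm_num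
    · intro θ hθ
      rw [uIcc_of_le (by linarith)] at hθ
      have := Real.cos_nonpos_of_pi_div_two_le_of_le (x := θ) hθ.1 hθ.2
      simp only
      rw [max_eq_right (by linarith)]
  have h3 : ∫ θ in (Real.pi + Real.pi / 2)..(2 * Real.pi), max 0 (-Real.cos θ) = 0 := by
    rw [intervalIntegral.integral_congr (g := fun _ => (0 : ℝ)), intervalIntegral.integral_zero]
    intro θ hθ
    rw [uIcc_of_le (by linarith)] at hθ
    have h4 := Real.cos_nonneg_of_neg_pi_div_two_le_of_le (x := θ - 2 * Real.pi)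
      (by linarith [hθ.1]) (by linarith [hθ.2])
    rw [Real.cos_sub_two_pi] at h4
    simp only
    rw [max_eq_left (by linarith)]
  rw [← intervalIntegral.integral_add_adjacent_intervals (b := Real.pi + Real.pi / 2)
    (hc.intervalIntegrable _ _) (hc.intervalIntegrable _ _),
    ← intervalIntegral.integral_add_adjacent_intervals (a := 0) (b := Real.pi / 2)
    (c := Real.pi + Real.pi / 2) (hc.intervalIntegrable _ _) (hc.intervalIntegrable _ _),
    h1, h2, h3]
  ring

/-- The mean of the logarithm of the weight over a circle centred on the line. -/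
theorem avg_om (β L y : ℝ) {r : ℝ} (hr : 0 < r) :
    Real.circleAverage (fun z : ℂ => β * L * max 0 (1 / 2 - z.re)) (((1 / 2 : ℝ) : ℂ) + y * I) r =
      β * L * r / Real.pi := by
  have hπ := Real.pi_pos
  rw [Real.circleAverage_def]
  have e1 : ∀ θ : ℝ, β * L * max 0 (1 / 2 - (circleMap (((1 / 2 : ℝ) : ℂ) + y * I) r θ).re) =
      (β * L * r) * max 0 (-Real.cos θ) := by
    intro θ
    have : (circleMap (((1 / 2 : ℝ) : ℂ) + y * I) r θ).re = 1 / 2 + r * Real.cos θ := by
      have hcm : circleMap (((1 / 2 : ℝ) : ℂ) + y * I) r θ =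
          ((1 / 2 + r * Real.cos θ : ℝ) : ℂ) + ((y + r * Real.sin θ : ℝ) : ℂ) * I := by
        rw [circleMap, Complex.exp_mul_I]
        push_cast
        ring
      rw [hcm, Complex.add_re, Complex.ofReal_re, Complex.mul_I_re, Complex.ofReal_im, neg_zero,
        add_zero]
    rw [this, mul_assoc (β * L) r, mul_max_of_nonneg _ _ hr.le]
    congr 2
    · ring
    · ring
  simp only [e1]
  rw [intervalIntegral.integral_const_mul, cos_neg_int, smul_eq_mul]
  field_simp

end

end Q97.RE
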