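import Pool.Agent.Q97.RB.Tz

set_option autoImplicit false

open Filter MeasureTheory Metric Real Set Topology MeromorphicOn

namespace Q97.RE

open Q97.RB

noncomputable section

/-- Jensen's formula and the convexity of the exponential function, with a weight. -/
theorem jensen_w {F : ℂ → ℂ} (hF : Differentiable ℂ F) {c : ℂ} {r β : ℝ} (hr : 0 < r)
    (hβ : 0 < β) {u : ℂ → ℝ} (hu : Continuous u) :
    ‖F c‖ ^ β * exp (β * NN F c r - circleAverage u c r) ≤
      circleAverage (fun z => ‖F z‖ ^ β * exp (-u z)) c r := by
  have hcont : Continuous (fun z => ‖F z‖ ^ β * exp (-u z)) :=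
    (hF.continuous.norm.rpow_const fun z => Or.inr hβ.le).mul (by fun_prop)
  have hci : CircleIntegrable (fun z => ‖F z‖ ^ β * exp (-u z)) c r := by
    refine Continuous.intervalIntegrable ?_ _ _
    exact hcont.comp (continuous_circleMap c r)
  by_cases hc : F c = 0
  · rw [hc, norm_zero, zero_rpow hβ.ne', zero_mul, circleAverage_def]
    have : 0 ≤ ∫ θ in (0 : ℝ)..2 * π, (fun z => ‖F z‖ ^ β * exp (-u z)) (circleMap c r θ) :=
      intervalIntegral.integral_nonneg (by positivity) fun θ _ => by positivity
    exact smul_nonneg (by positivity) this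
  · have hA : AnalyticOnNhd ℂ F univ := fun z _ => hF.analyticAt z
    have hm : MeromorphicOn F (closedBall c |r|) := (hA.mono (subset_univ _)).meromorphicOn
    have hm' : MeromorphicOn F (sphere c |r|) := (hA.mono (subset_univ _)).meromorphicOn
    have hJ := MeromorphicOn.circleAverage_log_norm hr.ne' hm
    have hcB : c ∈ closedBall c |r| := mem_closedBall_self (abs_nonneg r)
    have hd : divisor F (closedBall c |r|) c = 0 := by
      rw [MeromorphicOn.AnalyticOnNhd.divisor_apply (hA.mono (subset_univ _)) hcB,
        (hF.analyticAt c).analyticOrderAt_eq_zero.mpr hc]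
      simp
    rw [hd, (hF.analyticAt c).meromorphicTrailingCoeffAt_of_ne_zero hc] at hJ
    simp only [Int.cast_zero, zero_mul, add_zero] at hJ
    change circleAverage (log ‖F ·‖) c r = NN F c r + log ‖F c‖ at hJ
    set a := circleAverage u c r with ha
    set m := β * (NN F c r + log ‖F c‖) - a with hmdef
    have hlog : CircleIntegrable (log ‖F ·‖) c r := hm'.circleIntegrable_log_norm
    have hui : CircleIntegrable u c r :=
      (hu.comp (continuous_circleMap c r)).intervalIntegrable _ _
    have e1 : ‖F c‖ ^ β * exp (β * NN F c r - a) = exp m := by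
      rw [rpow_def_of_pos (norm_pos_iff.mpr hc), ← exp_add, hmdef]
      congr 1
      ring
    have e2 : circleAverage (fun z => ‖F z‖ ^ β * exp (-u z)) c r =
        circleAverage (fun z => exp (β * log ‖F z‖ - u z)) c r := by
      apply circleAverage_congr_codiscreteWithin _ hr.ne'
      filter_upwards [ne_zero_codiscrete hF hc (sphere c |r|)] with z hz
      rw [rpow_def_of_pos (norm_pos_iff.mpr hz), mul_comm (log _), ← exp_add, sub_eq_add_neg]
    have hci2 : CircleIntegrable (fun z => exp (β * log ‖F z‖ - u z)) c r := by
      refine hci.congr_codiscreteWithin ?_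
      filter_upwards [ne_zero_codiscrete hF hc (sphere c |r|)] with z hz
      rw [rpow_def_of_pos (norm_pos_iff.mpr hz), mul_comm (log _), ← exp_add, sub_eq_add_neg]
    have hlin : CircleIntegrable (fun z => exp m * (1 + (β * log ‖F z‖ - u z - m))) c r := by
      have h1 : CircleIntegrable (fun z => β * log ‖F z‖) c r := hlog.const_mul β
      have h2 : CircleIntegrable (fun z => β * log ‖F z‖ - u z) c r := h1.sub hui
      have h2' : CircleIntegrable (fun z => β * log ‖F z‖ - u z - m) c r :=
        h2.sub (circleIntegrable_const m c r)
      have h3 : CircleIntegrable (fun z => 1 + (β * log ‖F z‖ - u z - m)) c r :=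
        (circleIntegrable_const 1 c r).add h2'
      exact h3.const_mul (exp m)
    have e3 : circleAverage (fun z => exp m * (1 + (β * log ‖F z‖ - u z - m))) c r = exp m := by
      have e4 : (fun z => exp m * (1 + (β * log ‖F z‖ - u z - m))) =
          fun z => ((exp m * β) • log ‖F z‖ + (-exp m) • u z) + (exp m * (1 - m)) := by
        funext z
        rw [smul_eq_mul, smul_eq_mul]
        ring
      have h6 : CircleIntegrable (fun z => (exp m * β) • log ‖F z‖) c r := hlog.const_smul
      have h7 : CircleIntegrable (fun z => (-exp m) • u z) c r := hui.const_smul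
      have h8 : CircleIntegrable (fun z => (exp m * β) • log ‖F z‖ + (-exp m) • u z) c r :=
        h6.add h7
      rw [e4, circleAverage_fun_add h8 (circleIntegrable_const _ c r), circleAverage_fun_add h6 h7,
        circleAverage_fun_smul, circleAverage_fun_smul, circleAverage_const, hJ, smul_eq_mul,
        smul_eq_mul, hmdef, ← ha]
      ring
    rw [e1, e2, ← e3]
    refine circleAverage_mono hlin hci2 fun z _ => ?_
    have h5 := add_one_le_exp (β * log ‖F z‖ - u z - m)
    calc exp m * (1 + (β * log ‖F z‖ - u z - m)) ≤ exp m * exp (β * log ‖F z‖ - u z - m) := by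
          gcongr
          linarith
      _ = exp (β * log ‖F z‖ - u z) := by
          rw [← exp_add]
          congr 1
          ring

end

end Q97.RE
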